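import Mathlib
import Pool.Agent.Helper83.VN.Fin

/-!
# Voisin's conjecture for elliptic surfaces over the projective line, of any geometric genus

Let `k` be an algebraically closed field of characteristic zero, `N ≥ 1` and `e` natural numbers,
and `a 0, …, a 4` binary forms over `k`, the degree of `a i` being `2 N + e (i - 2)` (`a i = 0` if this
number is negative). We consider the surface
`w ^ 2 = a 0 (u) x₀ ^ 4 + a 1 (u) x₀ ^ 3 x₁ + a 2 (u) x₀ ^ 2 x₁ ^ 2 + a 3 (u) x₀ x₁ ^ 3 +
a 4 (u) x₁ ^ 4`,
a double cover of the rational ruled surface `P (O ⊕ O (e))` over `P¹`. If it has at most rational
double points, it is (the canonical model over `P¹` of) a surface of geometric genus `N - 1` and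
irregularity `0` with a relatively minimal fibration over `P¹` in curves of genus one, and all
surfaces with such a fibration which has a section or a 2-section arise in this way:
* `a 0 = 0`, `a 1 = 1`, `a 2 = 0`, `e = 2 N`: the elliptic surfaces with a section, in Weierstrass
  form `w ^ 2 = x ^ 3 + a 3 x + a 4`;
* `N = 2`: the `K3` surfaces with a genus one fibration with a 2-section, for example the double
  planes branched along a sextic curve with a singular point;
* `N ≥ 3`: elliptic surfaces of Kodaira dimension one, of any geometric genus `N - 1 ≥ 2`.
We prove that for `n ≥ N`, that is `n > p_g`, and zero-cycles `a_1, …, a_n` of degree zero the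
alternating sum of the exterior products `a_{σ(1)} × ⋯ × a_{σ(n)}` is torsion in the Chow group of
zero-cycles of the `n`-th power of the surface. There is no further hypothesis on the forms `a i`.

Outline of the proof.
* As for `K3` surfaces (see below) one reduces to functions `ψ` on the points of `S ^ n` which
  vanish on cycles rationally equivalent to zero, alternating, odd in each variable for `w ↦ - w`,
  and one passes to the Jacobian fibration `y ^ 2 = x ^ 3 - 3 a (t) x - 2 b (t)`, with a Weierstrass
  equation of degree `N`. They vanish if one of the points lies on a singular fibre.
* Local part. For fixed points `t_1, …, t_n` of the line, `ψ` is a function on a product of `n`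
  elliptic curves. The curve `X_i : v ^ 6 = z + b_i + d_i / (4 z)`, `d_i = b_i ^ 2 - a_i ^ 3`, is a
  covering of `E_i` (`x = v ^ 2 + a_i / v ^ 2`, `y = (z - d_i / (4 z)) / v ^ 3`). The components
  `ψ_χ` of `ψ` for the diagonal characters of the group `μ₃ ^ n` depend only on the coordinates
  `z_i` and on the product of the `v_i`. Moving lines on plane sections of the products `X_i × X_j`
  give two relations: a birational involution of recutting type `(z_i, z_j) ↦ (z_i', z_j')`
  changes the sign of `ψ_χ`, and so does a certain involution for the total product.
* Algebra of chains. To `(z_1, …, z_n)` one associates a chain of 4 x 4 matrices with a spectral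
  parameter `w` (`vec`, `act`); the vector `(U, U', Q, R)` of polynomials in `w` of the chain
  satisfies `Q ^ 2 - w U U' - w (w - 4) R ^ 2 = ∏ (b_i ^ 2 - d_i w / 4)` and is invariant under
  recutting and under the permutations of the factors; conversely the chain can be recovered from
  the vector (factorisation), for any order of the factors and any choice of the signs of the
  square roots `κ_i` of `a_i ^ 3`. So, up to the sign of the permutation, `ψ_χ` is a function of the
  unordered set of the `t_i`, the vector up to a torus, and a point `(ξ, y)` of the elliptic curve
  `y ^ 2 = ξ ^ 3 - 3 A ξ - 2 Q (4)`, `A = ∏ a_i`.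
* Contact. In a pencil `∏ (T - t_i) + s q (T)` the vector, `ξ` and `y` can be chosen as polynomials
  in `s` such that the equations hold exactly, except the last one, which holds up to a multiple of
  `s ^ (6 N)`: the number of unknowns exceeds the number of equations by `n - N + 1 ≥ 1`. On the
  curve obtained in this way the function has the same value (up to a controlled sign) at all
  points over `s = 0`, and the divisor of `s`, or of `(y - η (s)) / (y + η (s))`, shows that this value
  is zero.
* A function of the kind considered which vanishes at almost all points of a curve vanishes at all
  its points. This gives the vanishing for all `z_i`, then for all points of the fibres over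
  general `t_i`, and finally everywhere. Fibrations with constant `j` are treated separately.
-/

namespace Pool.Agent.Results.MP_83b46e_ag.EllipticSurfaces

open VC Pool.Agent.Helper83.QF

universe u

theorem result (k : Type u) [Field k] [IsAlgClosed k] [CharZero k] (Q : Qua k) (hN : 1 ≤ Q.N)
    (n : ℕ) (hn : Q.N ≤ n) (a : Fin n → Q.surface.Cycles) (ha : ∀ i, (a i).sum (fun _ c => c) = 0) :
    ∃ M : ℕ, 0 < M ∧ M • ∑ σ : Equiv.Perm (Fin n), ((Equiv.Perm.sign σ : ℤˣ) : ℤ) •
      extProd (fun i => a (σ i)) ∈ (Q.surface.pow n).Rat :=
  Pool.Agent.Helper83.VN.voisin_qua hN hn a ha

end Pool.Agent.Results.MP_83b46e_ag.EllipticSurfaces
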